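import Mathlib

set_option autoImplicit false

namespace Pool.Agent.Results.MP_9d6213_co.NoHellyNumber

open Module

/-- The subfamily `(p i)`, `i ∈ I`, admits a continuous shrinking onto `(q i)`, `i ∈ I`. -/
def AdmitsShrinking (d n : ℕ) (p q : Fin n → EuclideanSpace ℝ (Fin d)) (I : Finset (Fin n)) :
    Prop :=
  ∃ x : Fin n → ℝ → EuclideanSpace ℝ (Fin d),
    (∀ i ∈ I, ContinuousOn (x i) (Set.Icc 0 1) ∧ x i 0 = p i ∧ x i 1 = q i) ∧
    ∀ i ∈ I, ∀ j ∈ I, AntitoneOn (fun t => ‖x i t - x j t‖) (Set.Icc 0 1)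

/-- `m` is a Helly number for shrinking in dimension `d`. -/
def IsHellyNumber (d m : ℕ) : Prop :=
  ∀ (n : ℕ) (p q : Fin n → EuclideanSpace ℝ (Fin d)),
    (∀ I : Finset (Fin n), I.card ≤ m → AdmitsShrinking d n p q I) →
      AdmitsShrinking d n p q Finset.univ

/-! ### Sanity check in dimension one -/

lemma norm_one_dim (v : EuclideanSpace ℝ (Fin 1)) : ‖v‖ = |v 0| := by
  rw [EuclideanSpace.norm_eq, Fin.sum_univ_one, Real.norm_eq_abs, sq_abs, Real.sqrt_sq_eq_abs]

lemma abs_combo {a b t : ℝ} (hab : 0 ≤ a * b) (ht : t ∈ Set.Icc (0 : ℝ) 1) :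
    |(1 - t) * a + t * b| = (1 - t) * |a| + t * |b| := by
  have h1 : 0 ≤ 1 - t := by linarith [ht.2]
  have h2 : 0 ≤ t := ht.1
  rcases mul_nonneg_iff.mp hab with ⟨ha, hb⟩ | ⟨ha, hb⟩
  · rw [abs_of_nonneg ha, abs_of_nonneg hb, abs_of_nonneg (by positivity)]
  · rw [abs_of_nonpos ha, abs_of_nonpos hb, abs_of_nonpos (by nlinarith)]
    ring

/-- Sanity check of the definitions: `2` is a Helly number in dimension one (known). -/
lemma sanity_dim_one : IsHellyNumber 1 2 := by
  classical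
  intro n p q h
  have key : ∀ i j, 0 ≤ ((p i - p j) 0) * ((q i - q j) 0) ∧ |(q i - q j) 0| ≤ |(p i - p j) 0| := by
    intro i j
    obtain ⟨x, hx, hanti⟩ := h {i, j} Finset.card_le_two
    have hi : i ∈ ({i, j} : Finset (Fin n)) := by simp
    have hj : j ∈ ({i, j} : Finset (Fin n)) := by simp
    have h01 : (0 : ℝ) ∈ Set.Icc (0 : ℝ) 1 := by simp
    have h11 : (1 : ℝ) ∈ Set.Icc (0 : ℝ) 1 := by simp
    obtain ⟨ci, i0, i1⟩ := hx i hi
    obtain ⟨cj, j0, j1⟩ := hx j hj
    have hA := hanti i hi j hj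
    have hg : ContinuousOn (fun t => (x i t - x j t) 0) (Set.Icc 0 1) := by
      have h1 : Continuous (fun v : EuclideanSpace ℝ (Fin 1) => v 0) := by fun_prop
      exact h1.comp_continuousOn (ci.sub cj)
    constructor
    · by_contra hneg
      push Not at hneg
      have hzero : ∃ t ∈ Set.Icc (0 : ℝ) 1, (x i t - x j t) 0 = 0 := by
        rcases mul_neg_iff.mp hneg with ⟨h1, h2⟩ | ⟨h1, h2⟩
        · have := intermediate_value_Icc' (zero_le_one' ℝ) hg
          have h0 : (0 : ℝ) ∈ Set.Icc ((x i 1 - x j 1) 0) ((x i 0 - x j 0) 0) := by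
            rw [i0, j0, i1, j1]
            exact ⟨h2.le, h1.le⟩
          obtain ⟨t, ht, h3⟩ := this h0
          exact ⟨t, ht, h3⟩
        · have := intermediate_value_Icc (zero_le_one' ℝ) hg
          have h0 : (0 : ℝ) ∈ Set.Icc ((x i 0 - x j 0) 0) ((x i 1 - x j 1) 0) := by
            rw [i0, j0, i1, j1]
            exact ⟨h1.le, h2.le⟩
          obtain ⟨t, ht, h3⟩ := this h0
          exact ⟨t, ht, h3⟩
      obtain ⟨t, ht, h3⟩ := hzero
      have h4 := hA ht h11 ht.2
      simp only [norm_one_dim] at h4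
      rw [h3, abs_zero, i1, j1] at h4
      have h5 : (q i - q j) 0 = 0 := abs_nonpos_iff.mp h4
      rw [h5, mul_zero] at hneg
      exact lt_irrefl _ hneg
    · have h4 := hA h01 h11 zero_le_one
      simp only [norm_one_dim] at h4
      rw [i0, j0, i1, j1] at h4
      exact h4
  refine ⟨fun i t => (1 - t) • p i + t • q i, ?_, ?_⟩
  · intro i _
    refine ⟨Continuous.continuousOn (by fun_prop), by simp, by simp⟩
  · intro i _ j _ t ht t' ht' htt
    obtain ⟨h1, h2⟩ := key i j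
    have e : ∀ t, ((1 - t) • p i + t • q i - ((1 - t) • p j + t • q j)) 0 =
        (1 - t) * ((p i - p j) 0) + t * ((q i - q j) 0) := by
      intro t
      simp only [PiLp.sub_apply, PiLp.add_apply, PiLp.smul_apply, smul_eq_mul]
      ring
    simp only [norm_one_dim]
    rw [e, e, abs_combo h1 ht, abs_combo h1 ht']
    nlinarith

/-! ### A version for arbitrary index types and spaces -/

def Adm {ι E : Type} [NormedAddCommGroup E] (p q : ι → E) (I : Set ι) : Prop :=
  ∃ x : ι → ℝ → E,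
    (∀ i ∈ I, ContinuousOn (x i) (Set.Icc 0 1) ∧ x i 0 = p i ∧ x i 1 = q i) ∧
    ∀ i ∈ I, ∀ j ∈ I, AntitoneOn (fun t => ‖x i t - x j t‖) (Set.Icc 0 1)

/-! ### A good direction -/

lemma bad_unique (K : ℕ) (v : ℂ) (hv : v ≠ 0) (s s' : ℕ) (hs : s ≤ K)
    (h : |v.re + s * v.im| < 1 / (2 * K + 3) * ‖v‖)
    (h' : |v.re + s' * v.im| < 1 / (2 * K + 3) * ‖v‖) : s = s' := by
  by_contra hne
  have hvpos : 0 < ‖v‖ := norm_pos_iff.mpr hv
  set δ : ℝ := 1 / (2 * K + 3) with hδ
  have hK : (0 : ℝ) ≤ K := Nat.cast_nonneg K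
  have hδpos : 0 < δ := by positivity
  have hδK : δ * (2 * K + 3) = 1 := by
    rw [hδ]; field_simp
  have hdiff : (1 : ℝ) ≤ |(s : ℝ) - s'| := by
    have : (1 : ℤ) ≤ |(s : ℤ) - s'| := Int.one_le_abs (sub_ne_zero.mpr (by exact_mod_cast hne))
    exact_mod_cast this
  have him : |v.im| < 2 * δ * ‖v‖ := by
    have e : ((s : ℝ) - s') * v.im = (v.re + s * v.im) - (v.re + s' * v.im) := by ring
    have h1 : |((s : ℝ) - s') * v.im| ≤ |v.re + s * v.im| + |v.re + s' * v.im| := by
      rw [e]; exact abs_sub _ _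
    rw [abs_mul] at h1
    have h2 : |v.im| ≤ |(s : ℝ) - s'| * |v.im| := by
      nlinarith [abs_nonneg v.im]
    linarith
  have hre : |v.re| < (2 * K + 1) * δ * ‖v‖ := by
    have e : v.re = (v.re + s * v.im) - s * v.im := by ring
    have h1 : |v.re| ≤ |v.re + s * v.im| + |(s : ℝ) * v.im| := by
      conv_lhs => rw [e]
      exact abs_sub _ _
    rw [abs_mul, abs_of_nonneg (Nat.cast_nonneg s : (0 : ℝ) ≤ s)] at h1
    have hsK : (s : ℝ) ≤ K := by exact_mod_cast hs
    have h2 : (s : ℝ) * |v.im| ≤ K * (2 * δ * ‖v‖) := by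
      apply mul_le_mul hsK him.le (abs_nonneg _) hK
    nlinarith
  have hsum := Complex.norm_le_abs_re_add_abs_im v
  have : ‖v‖ < (2 * K + 3) * δ * ‖v‖ := by nlinarith
  nlinarith

lemma exists_direction (K : ℕ) (S : Finset ℂ) (hS : S.card ≤ K) :
    ∃ s : ℕ, s ≤ K ∧ ∀ v ∈ S, 1 / (2 * K + 3) * ‖v‖ ≤ |v.re + s * v.im| := by
  classical
  by_contra hcon
  push Not at hcon
  have hcon' : ∀ s : Fin (K + 1), ∃ v ∈ S, |v.re + (s : ℕ) * v.im| < 1 / (2 * K + 3) * ‖v‖ := by
    intro s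
    exact hcon s (by omega)
  choose f hf1 hf2 using hcon'
  have hinj : Function.Injective f := by
    intro s s' h
    have hv : f s ≠ 0 := by
      intro h0
      have := hf2 s
      rw [h0] at this
      simp at this
    have h2 := hf2 s'
    rw [← h] at h2
    exact Fin.ext (bad_unique K (f s) hv s s' (by omega) (hf2 s) h2)
  have := Finset.card_le_card_of_injOn (s := (Finset.univ : Finset (Fin (K + 1)))) (t := S) f
    (fun s _ => hf1 s) (hinj.injOn)
  rw [Finset.card_univ, Fintype.card_fin] at this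
  omega

/-! ### The planar motion -/

section Motion
variable (lam : ℝ) (u : ℂ)

/-- scaling along the good direction -/
noncomputable def ca (lam t : ℝ) : ℝ := 1 - max 0 (2 * t - 1) * (1 - lam)
/-- scaling across the good direction -/
noncomputable def cb (lam t : ℝ) : ℝ := max 0 (1 - 2 * t) - max 0 (2 * t - 1) * lam

/-- The motion of the point `v`. -/
noncomputable def mot (lam : ℝ) (u : ℂ) (t : ℝ) (v : ℂ) : ℂ :=
  Complex.exp (-2 * Complex.arg u * t * Complex.I) * u *
    ((ca lam t * ((starRingEnd ℂ) u * v).re : ℝ) + (cb lam t * ((starRingEnd ℂ) u * v).im : ℝ) * Complex.I)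

lemma mot_sub (t : ℝ) (v w : ℂ) : mot lam u t v - mot lam u t w = mot lam u t (v - w) := by
  unfold mot
  rw [← mul_sub]
  congr 1
  rw [mul_sub, Complex.sub_re, Complex.sub_im]
  push_cast
  ring

lemma mot_zero' (t : ℝ) : mot lam u t 0 = 0 := by
  unfold mot
  simp

lemma mot_continuous (v : ℂ) : Continuous (fun t : ℝ => mot lam u t v) := by
  unfold mot ca cb
  fun_prop

lemma mot_start (hu : ‖u‖ = 1) (v : ℂ) : mot lam u 0 v = v := by
  have h1 : u * (starRingEnd ℂ) u = 1 := by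
    rw [Complex.mul_conj, Complex.normSq_eq_norm_sq, hu]; simp
  have ha : ca lam 0 = 1 := by simp [ca]
  have hb : cb lam 0 = 1 := by simp [cb]
  unfold mot
  rw [ha, hb, one_mul, one_mul, Complex.re_add_im, ← mul_assoc]
  simp only [Complex.ofReal_zero, mul_zero, zero_mul, Complex.exp_zero, one_mul]
  rw [h1, one_mul]

lemma mot_end (hu : ‖u‖ = 1) (v : ℂ) : mot lam u 1 v = lam * (starRingEnd ℂ) v := by
  have hu2 : u = Complex.exp (Complex.arg u * Complex.I) := by
    have := Complex.norm_mul_exp_arg_mul_I u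
    rw [hu] at this
    simpa using this.symm
  have h1 : u * (starRingEnd ℂ) u = 1 := by
    rw [Complex.mul_conj, Complex.normSq_eq_norm_sq, hu]; simp
  have ha : ca lam 1 = lam := by simp [ca]; norm_num
  have hb : cb lam 1 = -lam := by simp [cb]; norm_num
  have hexp : Complex.exp (-2 * Complex.arg u * (1 : ℝ) * Complex.I) * u * u = 1 := by
    obtain ⟨θ, hθ⟩ : ∃ θ : ℝ, θ = Complex.arg u := ⟨_, rfl⟩
    rw [← hθ] at hu2 ⊢
    rw [hu2, ← Complex.exp_add, ← Complex.exp_add, ← Complex.exp_zero]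
    congr 1
    push_cast
    ring
  unfold mot
  rw [ha, hb]
  have h3 : ((lam * ((starRingEnd ℂ) u * v).re : ℝ) : ℂ) +
      ((-lam * ((starRingEnd ℂ) u * v).im : ℝ) : ℂ) * Complex.I =
      lam * (starRingEnd ℂ) ((starRingEnd ℂ) u * v) := by
    apply Complex.ext
    · simp
    · simp
      ring
  rw [h3, map_mul, Complex.conj_conj]
  calc Complex.exp (-2 * Complex.arg u * (1 : ℝ) * Complex.I) * u * (lam * (u * (starRingEnd ℂ) v))
      = (Complex.exp (-2 * Complex.arg u * (1 : ℝ) * Complex.I) * u * u) *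
          (lam * (starRingEnd ℂ) v) := by ring
    _ = lam * (starRingEnd ℂ) v := by rw [hexp, one_mul]

lemma mot_norm_sq (hu : ‖u‖ = 1) (t : ℝ) (v : ℂ) : ‖mot lam u t v‖ ^ 2 =
    ca lam t ^ 2 * ((starRingEnd ℂ) u * v).re ^ 2 + cb lam t ^ 2 * ((starRingEnd ℂ) u * v).im ^ 2 := by
  unfold mot
  rw [norm_mul, norm_mul, hu, mul_one]
  have he : ‖Complex.exp (-2 * Complex.arg u * t * Complex.I)‖ = 1 := by
    have : (-2 * Complex.arg u * t * Complex.I : ℂ) = ((-2 * Complex.arg u * t : ℝ) : ℂ) * Complex.I := by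
      push_cast; ring
    rw [this, Complex.norm_exp_ofReal_mul_I]
  rw [he, one_mul, ← Complex.normSq_eq_norm_sq, Complex.normSq_add_mul_I]
  ring

lemma mot_antitone (hl0 : 0 ≤ lam) (hl1 : lam ≤ 1) (hu : ‖u‖ = 1) (v : ℂ)
    (hv : lam * ‖v‖ ^ 2 ≤ ((starRingEnd ℂ) u * v).re ^ 2) :
    AntitoneOn (fun t : ℝ => ‖mot lam u t v‖) (Set.Icc 0 1) := by
  intro t ht t' ht' htt
  simp only
  apply le_of_sq_le_sq _ (norm_nonneg _) |> fun h => h
  rw [mot_norm_sq lam u hu, mot_norm_sq lam u hu]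
  set A := ((starRingEnd ℂ) u * v).re ^ 2 with hA
  set B := ((starRingEnd ℂ) u * v).im ^ 2 with hB
  have hA0 : 0 ≤ A := sq_nonneg _
  have hB0 : 0 ≤ B := sq_nonneg _
  have hAB : A + B = ‖v‖ ^ 2 := by
    have h1 : ‖(starRingEnd ℂ) u * v‖ = ‖v‖ := by rw [norm_mul, RCLike.norm_conj, hu, one_mul]
    rw [← h1, ← Complex.normSq_eq_norm_sq, Complex.normSq_apply, hA, hB]
    ring
  rw [← hAB] at hv
  have hkey : lam * B ≤ (1 - lam) * A := by linarith
  have hs : 0 ≤ max 0 (2 * t - 1) := le_max_left _ _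
  have hs1 : max 0 (2 * t - 1) ≤ 1 := max_le (by norm_num) (by linarith [ht.2])
  have hs' : 0 ≤ max 0 (2 * t' - 1) := le_max_left _ _
  have hs1' : max 0 (2 * t' - 1) ≤ 1 := max_le (by norm_num) (by linarith [ht'.2])
  have hss : max 0 (2 * t - 1) ≤ max 0 (2 * t' - 1) := max_le_max le_rfl (by linarith)
  have hr' : 0 ≤ max 0 (1 - 2 * t') := le_max_left _ _
  have hrr : max 0 (1 - 2 * t') ≤ max 0 (1 - 2 * t) := max_le_max le_rfl (by linarith)
  have hsr : max 0 (2 * t - 1) * max 0 (1 - 2 * t) = 0 := by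
    rcases le_total (2 * t) 1 with h | h
    · rw [max_eq_left (by linarith : 2 * t - 1 ≤ 0), zero_mul]
    · rw [max_eq_left (by linarith : 1 - 2 * t ≤ 0), mul_zero]
  have hsr' : max 0 (2 * t' - 1) * max 0 (1 - 2 * t') = 0 := by
    rcases le_total (2 * t') 1 with h | h
    · rw [max_eq_left (by linarith : 2 * t' - 1 ≤ 0), zero_mul]
    · rw [max_eq_left (by linarith : 1 - 2 * t' ≤ 0), mul_zero]
  unfold ca cb
  set s := max 0 (2 * t - 1)
  set s' := max 0 (2 * t' - 1)
  set r := max 0 (1 - 2 * t)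
  set r' := max 0 (1 - 2 * t')
  have e1 : (r - s * lam) ^ 2 = r ^ 2 + s ^ 2 * lam ^ 2 := by
    have : (r - s * lam) ^ 2 = r ^ 2 - 2 * lam * (s * r) + s ^ 2 * lam ^ 2 := by ring
    rw [this, hsr]; ring
  have e2 : (r' - s' * lam) ^ 2 = r' ^ 2 + s' ^ 2 * lam ^ 2 := by
    have : (r' - s' * lam) ^ 2 = r' ^ 2 - 2 * lam * (s' * r') + s' ^ 2 * lam ^ 2 := by ring
    rw [this, hsr']; ring
  rw [e1, e2]
  have hr2 : r' ^ 2 * B ≤ r ^ 2 * B := by
    apply mul_le_mul_of_nonneg_right _ hB0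
    exact pow_le_pow_left₀ hr' hrr 2
  have hmain : (1 - s' * (1 - lam)) ^ 2 * A + s' ^ 2 * lam ^ 2 * B ≤
      (1 - s * (1 - lam)) ^ 2 * A + s ^ 2 * lam ^ 2 * B := by
    have h1 : 0 ≤ (s' - s) * ((1 - lam) * (2 - (s + s') * (1 - lam)) * A - (s + s') * lam ^ 2 * B) := by
      apply mul_nonneg (by linarith)
      have h2 : 2 * lam ≤ 2 - (s + s') * (1 - lam) := by nlinarith
      have h3 : (1 - lam) * (2 * lam) * A ≤ (1 - lam) * (2 - (s + s') * (1 - lam)) * A := by
        apply mul_le_mul_of_nonneg_right _ hA0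
        apply mul_le_mul_of_nonneg_left h2 (by linarith)
      have h4 : (s + s') * lam ^ 2 * B ≤ 2 * lam ^ 2 * B := by
        apply mul_le_mul_of_nonneg_right _ hB0
        apply mul_le_mul_of_nonneg_right _ (by positivity)
        linarith
      have h5 : 2 * lam ^ 2 * B ≤ (1 - lam) * (2 * lam) * A := by
        have := mul_le_mul_of_nonneg_left hkey (by linarith : 0 ≤ 2 * lam)
        nlinarith
      linarith
    nlinarith
  nlinarith

end Motion


/-! ### The configuration -/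

/-- The ambient space, of dimension `e + 2`. -/
abbrev EE (e : ℕ) : Type := EuclideanSpace ℝ (Fin 2 ⊕ Fin e)

/-- The point with planar part `z` and remaining coordinates `w`. -/
noncomputable def pt {e : ℕ} (z : ℂ) (w : Fin e → ℝ) : EE e :=
  WithLp.toLp 2 (Sum.elim ![z.re, z.im] w)

lemma pt_sub {e : ℕ} (z z' : ℂ) (w w' : Fin e → ℝ) : pt z w - pt z' w' = pt (z - z') (w - w') := by
  ext i
  rcases i with i | i
  · fin_cases i <;> simp [pt]
  · simp [pt]

lemma norm_pt_sq {e : ℕ} (z : ℂ) (w : Fin e → ℝ) : ‖pt z w‖ ^ 2 = ‖z‖ ^ 2 + ∑ j, w j ^ 2 := by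
  rw [EuclideanSpace.norm_sq_eq, Fintype.sum_sum_type]
  congr 1
  · rw [Fin.sum_univ_two, ← Complex.normSq_eq_norm_sq, Complex.normSq_apply]
    simp [pt]
    ring
  · simp [pt]

lemma continuous_pt {e : ℕ} (w : Fin e → ℝ) : Continuous (fun z : ℂ => (pt z w : EE e)) := by
  unfold pt
  apply (PiLp.continuous_toLp 2 _).comp
  apply continuous_pi
  intro i
  rcases i with i | i
  · fin_cases i
    · exact Complex.continuous_re
    · exact Complex.continuous_im
  · exact continuous_const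

/-- The scaling factor for subfamilies whose difference set has at most `K` elements. -/
noncomputable def lamOf (K : ℕ) : ℝ := (1 / (2 * K + 3)) ^ 2 / (1 + (K : ℝ) ^ 2)

lemma lamOf_pos (K : ℕ) : 0 < lamOf K := by
  unfold lamOf
  positivity

lemma lamOf_le_one (K : ℕ) : lamOf K ≤ 1 := by
  unfold lamOf
  have hK : (0 : ℝ) ≤ K := Nat.cast_nonneg K
  rw [div_le_one (by positivity)]
  have h1 : (1 : ℝ) / (2 * K + 3) ≤ 1 := by
    rw [div_le_one (by positivity)]
    linarith
  have h0 : (0 : ℝ) ≤ 1 / (2 * K + 3) := by positivity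
  nlinarith

lemma subfamily {e : ℕ} {ι : Type} (z : ι → ℂ) (w : ι → (Fin e → ℝ)) (m : ℕ) (I : Finset ι)
    (hI : I.card ≤ m) :
    Adm (fun i => (pt (z i) (w i) : EE e))
      (fun i => (pt ((lamOf (m * m) : ℂ) * (starRingEnd ℂ) (z i)) (w i) : EE e)) (I : Set ι) := by
  classical
  set K := m * m with hK
  set S : Finset ℂ := (I ×ˢ I).image (fun a => z a.1 - z a.2) with hS
  have hScard : S.card ≤ K := by
    calc S.card ≤ (I ×ˢ I).card := Finset.card_image_le
      _ = I.card * I.card := Finset.card_product _ _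
      _ ≤ m * m := Nat.mul_le_mul hI hI
  obtain ⟨s, hsK, hs⟩ := exists_direction K S hScard
  have hq : (0 : ℝ) < 1 + (s : ℝ) ^ 2 := by positivity
  set r : ℝ := Real.sqrt (1 + (s : ℝ) ^ 2) with hr
  have hr0 : 0 < r := Real.sqrt_pos.mpr hq
  have hr2 : r ^ 2 = 1 + (s : ℝ) ^ 2 := Real.sq_sqrt hq.le
  set u : ℂ := ⟨1 / r, s / r⟩ with hu
  have hu1 : ‖u‖ = 1 := by
    have h1 : ‖u‖ ^ 2 = 1 := by
      rw [← Complex.normSq_eq_norm_sq, Complex.normSq_apply, hu]
      simp only
      have : 1 / r * (1 / r) + (s : ℝ) / r * (s / r) = (1 + (s : ℝ) ^ 2) / r ^ 2 := by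
        field_simp
      rw [this, hr2, div_self hq.ne']
    have h0 := norm_nonneg u
    nlinarith
  have hgood : ∀ v ∈ S, lamOf K * ‖v‖ ^ 2 ≤ ((starRingEnd ℂ) u * v).re ^ 2 := by
    intro v hv
    have h1 := hs v hv
    have h2 : ((starRingEnd ℂ) u * v).re = (v.re + s * v.im) / r := by
      rw [Complex.mul_re, Complex.conj_re, Complex.conj_im, hu]
      simp only
      field_simp
      ring
    rw [h2, div_pow, hr2, lamOf]
    have h3 : (1 / (2 * (K : ℝ) + 3) * ‖v‖) ^ 2 ≤ (v.re + s * v.im) ^ 2 := by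
      rw [← sq_abs (v.re + s * v.im)]
      apply pow_le_pow_left₀ (by positivity) h1
    rw [le_div_iff₀ hq]
    have hsK' : (s : ℝ) ≤ K := by exact_mod_cast hsK
    have hs0 : (0 : ℝ) ≤ s := Nat.cast_nonneg s
    have h4 : (1 : ℝ) + (s : ℝ) ^ 2 ≤ 1 + (K : ℝ) ^ 2 := by nlinarith
    calc (1 / (2 * (K : ℝ) + 3)) ^ 2 / (1 + (K : ℝ) ^ 2) * ‖v‖ ^ 2 * (1 + (s : ℝ) ^ 2)
        = (1 / (2 * (K : ℝ) + 3) * ‖v‖) ^ 2 * ((1 + (s : ℝ) ^ 2) / (1 + (K : ℝ) ^ 2)) := by ring
      _ ≤ (1 / (2 * (K : ℝ) + 3) * ‖v‖) ^ 2 * 1 := by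
          apply mul_le_mul_of_nonneg_left _ (sq_nonneg _)
          rw [div_le_one (by positivity)]
          exact h4
      _ ≤ (v.re + s * v.im) ^ 2 := by rw [mul_one]; exact h3
  refine ⟨fun i t => pt (mot (lamOf K) u t (z i)) (w i), ?_, ?_⟩
  · intro i hi
    refine ⟨?_, ?_, ?_⟩
    · exact ((continuous_pt (w i)).comp (mot_continuous (lamOf K) u (z i))).continuousOn
    · simp only [mot_start (lamOf K) u hu1]
    · simp only [mot_end (lamOf K) u hu1]
  · intro i hi j hj t ht t' ht' htt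
    simp only
    rw [pt_sub, pt_sub, mot_sub, mot_sub]
    have hvS : z i - z j ∈ S := by
      rw [hS, Finset.mem_image]
      exact ⟨(i, j), Finset.mem_product.mpr ⟨hi, hj⟩, rfl⟩
    have hmono := mot_antitone (lamOf K) u (lamOf_pos K).le (lamOf_le_one K) hu1 (z i - z j)
      (hgood _ hvS) ht ht' htt
    simp only at hmono
    have h1 : ‖(pt (mot (lamOf K) u t' (z i - z j)) (w i - w j) : EE e)‖ ^ 2 ≤
        ‖(pt (mot (lamOf K) u t (z i - z j)) (w i - w j) : EE e)‖ ^ 2 := by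
      rw [norm_pt_sq, norm_pt_sq]
      have := pow_le_pow_left₀ (norm_nonneg _) hmono 2
      linarith
    exact le_of_sq_le_sq h1 (norm_nonneg _)


/-! ### The rotation number -/

/-- The vectors `a, b` followed by the frame `f`. -/
def vecs {e : ℕ} (a b : EE e) (f : Fin e → EE e) : Fin 2 ⊕ Fin e → EE e := Sum.elim ![a, b] f

/-- Real part: inner product of `a, b` modulo the frame; imaginary part: the determinant. -/
noncomputable def ZZ {e : ℕ} (a b : EE e) (f : Fin e → EE e) : ℂ :=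
  ((inner ℝ a b - ∑ j, inner ℝ a (f j) * inner ℝ b (f j) : ℝ) : ℂ) +
    ((Matrix.det (Matrix.of fun k i => (vecs a b f i) k) : ℝ) : ℂ) * Complex.I

lemma ZZ_re {e : ℕ} (a b : EE e) (f : Fin e → EE e) :
    (ZZ a b f).re = inner ℝ a b - ∑ j, inner ℝ a (f j) * inner ℝ b (f j) := by
  unfold ZZ
  rw [Complex.add_re, Complex.ofReal_re, Complex.re_ofReal_mul, Complex.I_re, mul_zero, add_zero]

lemma ZZ_im {e : ℕ} (a b : EE e) (f : Fin e → EE e) :
    (ZZ a b f).im = Matrix.det (Matrix.of fun k i => (vecs a b f i) k) := by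
  unfold ZZ
  rw [Complex.add_im, Complex.ofReal_im, Complex.im_ofReal_mul, Complex.I_im, mul_one, zero_add]

lemma continuous_ZZ {e : ℕ} {X : Type} [TopologicalSpace X] {g h : X → EE e}
    {f : X → Fin e → EE e} (hg : Continuous g) (hh : Continuous h) (hf : Continuous f) :
    Continuous (fun t => ZZ (g t) (h t) (f t)) := by
  have hfj : ∀ j, Continuous (fun t => f t j) := fun j => (continuous_apply j).comp hf
  have hcoord : ∀ k : Fin 2 ⊕ Fin e, Continuous (fun v : EE e => v k) := by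
    intro k
    fun_prop
  unfold ZZ
  apply Continuous.add
  · apply Complex.continuous_ofReal.comp
    apply Continuous.sub (hg.inner hh)
    apply continuous_finsetSum
    intro j _
    exact (hg.inner (hfj j)).mul (hh.inner (hfj j))
  · apply Continuous.mul _ continuous_const
    apply Complex.continuous_ofReal.comp
    apply Continuous.matrix_det
    apply continuous_matrix
    intro k i
    simp only [Matrix.of_apply]
    rcases i with i | i
    · fin_cases i
      · exact (hcoord k).comp hg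
      · exact (hcoord k).comp hh
    · exact (hcoord k).comp (hfj i)

lemma continuousOn_ZZ {e : ℕ} {g h : ℝ → EE e} {f : ℝ → Fin e → EE e} {s : Set ℝ}
    (hg : ContinuousOn g s) (hh : ContinuousOn h s) (hf : ContinuousOn f s) :
    ContinuousOn (fun t => ZZ (g t) (h t) (f t)) s := by
  rw [continuousOn_iff_continuous_domRestrict] at *
  exact continuous_ZZ hg hh hf

lemma continuousOn_arg_ZZ {e : ℕ} {g h : ℝ → EE e} {f : ℝ → Fin e → EE e} {s : Set ℝ}
    (hg : ContinuousOn g s) (hh : ContinuousOn h s) (hf : ContinuousOn f s)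
    (hpos : ∀ t ∈ s, 0 < (ZZ (g t) (h t) (f t)).re) :
    ContinuousOn (fun t => Complex.arg (ZZ (g t) (h t) (f t))) s := by
  have h1 := continuousOn_ZZ hg hh hf
  intro t ht
  have h2 : (fun t => ZZ (g t) (h t) (f t)) t ∈ Complex.slitPlane := by
    left
    exact hpos t ht
  exact ContinuousAt.comp_continuousWithinAt (g := Complex.arg)
    (f := fun t => ZZ (g t) (h t) (f t)) (Complex.continuousAt_arg h2) (h1 t ht)

lemma ZZ_eq {e : ℕ} (f : Fin e → EE e) (b : OrthonormalBasis (Fin 2 ⊕ Fin e) ℝ (EE e))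
    (hb : ∀ j, b (Sum.inr j) = f j) : ∃ ε : ℝ, (ε = 1 ∨ ε = -1) ∧ ∀ x y : EE e,
    (ZZ x y f).re = inner ℝ (b (Sum.inl 0)) x * inner ℝ (b (Sum.inl 0)) y +
      inner ℝ (b (Sum.inl 1)) x * inner ℝ (b (Sum.inl 1)) y ∧
    (ZZ x y f).im = ε * (inner ℝ (b (Sum.inl 0)) x * inner ℝ (b (Sum.inl 1)) y -
      inner ℝ (b (Sum.inl 1)) x * inner ℝ (b (Sum.inl 0)) y) := by
  set std := EuclideanSpace.basisFun (Fin 2 ⊕ Fin e) ℝ with hstd
  refine ⟨std.toBasis.det ⇑b, std.det_to_matrix_orthonormalBasis_real b, ?_⟩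
  intro x y
  constructor
  · rw [ZZ_re, ← b.sum_inner_mul_inner x y, Fintype.sum_sum_type, Fin.sum_univ_two]
    have : ∑ j, inner ℝ x (b (Sum.inr j)) * inner ℝ (b (Sum.inr j)) y =
        ∑ j, inner ℝ x (f j) * inner ℝ y (f j) := by
      apply Finset.sum_congr rfl
      intro j _
      rw [hb j, real_inner_comm y (f j)]
    rw [this, real_inner_comm x (b (Sum.inl 0)), real_inner_comm x (b (Sum.inl 1))]
    ring
  · rw [ZZ_im]
    have h1 : Matrix.det (Matrix.of fun k i => (vecs x y f i) k) = std.toBasis.det (vecs x y f) := by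
      rw [Basis.det_apply]
      congr 1
    have h2 := AlternatingMap.eq_smul_basis_det b.toBasis std.toBasis.det
    have h3 : std.toBasis.det (vecs x y f) =
        std.toBasis.det ⇑b * b.toBasis.det (vecs x y f) := by
      conv_lhs => rw [h2]
      rw [AlternatingMap.smul_apply, smul_eq_mul, OrthonormalBasis.coe_toBasis]
    rw [h1, h3]
    congr 1
    rw [Basis.det_apply]
    have h4 : b.toBasis.toMatrix (vecs x y f) = Matrix.fromBlocks
        (Matrix.of ![![inner ℝ (b (Sum.inl 0)) x, inner ℝ (b (Sum.inl 0)) y],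
          ![inner ℝ (b (Sum.inl 1)) x, inner ℝ (b (Sum.inl 1)) y]])
        0 (Matrix.of fun j i => inner ℝ (b (Sum.inr j)) (![x, y] i)) 1 := by
      ext i j
      rw [Basis.toMatrix_apply, OrthonormalBasis.coe_toBasis_repr_apply,
        OrthonormalBasis.repr_apply_apply]
      rcases i with i | i
      · rcases j with j | j
        · fin_cases i <;> fin_cases j <;> rfl
        · simp only [vecs, Sum.elim_inr, Matrix.fromBlocks_apply₁₂, Matrix.zero_apply]
          rw [← hb j]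
          exact b.orthonormal.2 (by simp)
      · rcases j with j | j
        · fin_cases j <;> rfl
        · simp only [vecs, Sum.elim_inr, Matrix.fromBlocks_apply₂₂]
          rw [← hb j, Matrix.one_apply]
          have := orthonormal_iff_ite.mp b.orthonormal (Sum.inr i) (Sum.inr j)
          rw [this]
          simp
    rw [h4, Matrix.det_fromBlocks_zero₁₂, Matrix.det_one, mul_one, Matrix.det_fin_two]
    simp
    ring

lemma prod_ZZ {e N : ℕ} [NeZero N] (a : ZMod N → EE e) (f : Fin e → EE e)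
    (hf : Orthonormal ℝ f) :
    ∃ r : ℝ, 0 ≤ r ∧ ∏ k, ZZ (a k) (a (k + 1)) f = (r : ℂ) := by
  classical
  set v : Fin 2 ⊕ Fin e → EE e := Sum.elim (fun _ => 0) f with hv
  have hor : Orthonormal ℝ ((Set.range (Sum.inr : Fin e → Fin 2 ⊕ Fin e)).domRestrict v) := by
    have hmem : ∀ i : Set.range (Sum.inr : Fin e → Fin 2 ⊕ Fin e), ∃ j, Sum.inr j = i.1 :=
      fun i => i.2
    choose g hg using hmem
    have hginj : Function.Injective g := by
      intro i i' h
      apply Subtype.ext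
      rw [← hg i, ← hg i', h]
    have h1 := hf.comp g hginj
    have h2 : (f ∘ g) = (Set.range (Sum.inr : Fin e → Fin 2 ⊕ Fin e)).domRestrict v := by
      funext i
      show f (g i) = v i.1
      rw [← hg i, hv]
      simp
    rw [← h2]
    exact h1
  obtain ⟨b, hb⟩ := hor.exists_orthonormalBasis_extension_of_card_eq (by
    rw [finrank_euclideanSpace])
  have hb' : ∀ j, b (Sum.inr j) = f j := by
    intro j
    rw [hb (Sum.inr j) ⟨j, rfl⟩, hv]
    simp
  obtain ⟨ε, hε, hZ⟩ := ZZ_eq f b hb'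
  set α : ZMod N → ℂ := fun k => ⟨inner ℝ (b (Sum.inl 0)) (a k), inner ℝ (b (Sum.inl 1)) (a k)⟩
    with hα
  have hshift : ∀ h : ZMod N → ℂ, ∏ k, h (k + 1) = ∏ k, h k := by
    intro h
    exact Equiv.prod_comp (Equiv.addRight (1 : ZMod N)) h
  refine ⟨∏ k, Complex.normSq (α k), Finset.prod_nonneg (fun k _ => Complex.normSq_nonneg _), ?_⟩
  rw [Complex.ofReal_prod]
  rcases hε with hε | hε
  · have h1 : ∀ k, ZZ (a k) (a (k + 1)) f = (starRingEnd ℂ) (α k) * α (k + 1) := by
      intro k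
      obtain ⟨hre, him⟩ := hZ (a k) (a (k + 1))
      apply Complex.ext
      · rw [hre, Complex.mul_re, Complex.conj_re, Complex.conj_im]
        simp only [hα]
        ring
      · rw [him, hε, Complex.mul_im, Complex.conj_re, Complex.conj_im]
        simp only [hα]
        ring
    rw [Finset.prod_congr rfl (fun k _ => h1 k), Finset.prod_mul_distrib, hshift,
      ← Finset.prod_mul_distrib]
    apply Finset.prod_congr rfl
    intro k _
    rw [mul_comm, Complex.mul_conj]
  · have h1 : ∀ k, ZZ (a k) (a (k + 1)) f = α k * (starRingEnd ℂ) (α (k + 1)) := by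
      intro k
      obtain ⟨hre, him⟩ := hZ (a k) (a (k + 1))
      apply Complex.ext
      · rw [hre, Complex.mul_re, Complex.conj_re, Complex.conj_im]
        simp only [hα]
        ring
      · rw [him, hε, Complex.mul_im, Complex.conj_re, Complex.conj_im]
        simp only [hα]
        ring
    rw [Finset.prod_congr rfl (fun k _ => h1 k), Finset.prod_mul_distrib,
      hshift (fun k => (starRingEnd ℂ) (α k)), ← Finset.prod_mul_distrib]
    apply Finset.prod_congr rfl
    intro k _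
    rw [Complex.mul_conj]

lemma sum_arg_ne_pi {e N : ℕ} [NeZero N] (a : ZMod N → EE e) (f : Fin e → EE e)
    (hf : Orthonormal ℝ f) (hpos : ∀ k, 0 < (ZZ (a k) (a (k + 1)) f).re) :
    ∑ k, Complex.arg (ZZ (a k) (a (k + 1)) f) ≠ Real.pi := by
  intro hsum
  obtain ⟨r, hr0, hr⟩ := prod_ZZ a f hf
  have h1 : ∏ k, ZZ (a k) (a (k + 1)) f =
      (∏ k, ((‖ZZ (a k) (a (k + 1)) f‖ : ℝ) : ℂ)) *
        Complex.exp (((∑ k, Complex.arg (ZZ (a k) (a (k + 1)) f) : ℝ) : ℂ) * Complex.I) := by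
    rw [Complex.ofReal_sum, Finset.sum_mul, Complex.exp_sum, ← Finset.prod_mul_distrib]
    apply Finset.prod_congr rfl
    intro k _
    rw [Complex.norm_mul_exp_arg_mul_I]
  rw [hsum, Complex.exp_pi_mul_I, hr, ← Complex.ofReal_prod] at h1
  have h2 : r = -∏ k, ‖ZZ (a k) (a (k + 1)) f‖ := by
    have : (r : ℂ) = ((-∏ k, ‖ZZ (a k) (a (k + 1)) f‖ : ℝ) : ℂ) := by
      rw [h1]; push_cast; ring
    exact_mod_cast this
  have h3 : 0 < ∏ k, ‖ZZ (a k) (a (k + 1)) f‖ := by
    apply Finset.prod_pos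
    intro k _
    rw [norm_pos_iff]
    intro h0
    have := hpos k
    rw [h0] at this
    simp at this
  linarith

lemma ZZ_pt {e : ℕ} (a b : ℂ) :
    ZZ (pt a 0 : EE e) (pt b 0) (fun j => pt 0 (Pi.single j 1)) = (starRingEnd ℂ) a * b := by
  apply Complex.ext
  · rw [ZZ_re, Complex.mul_re, Complex.conj_re, Complex.conj_im]
    have h1 : ∀ c : ℂ, ∀ j : Fin e, inner ℝ (pt c 0 : EE e) (pt 0 (Pi.single j 1)) = 0 := by
      intro c j
      rw [PiLp.inner_apply, Fintype.sum_sum_type, Fin.sum_univ_two]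
      simp [pt]
    have h2 : inner ℝ (pt a 0 : EE e) (pt b 0) = a.re * b.re + a.im * b.im := by
      rw [PiLp.inner_apply, Fintype.sum_sum_type, Fin.sum_univ_two]
      simp [pt]
      ring
    rw [h2]
    simp [h1]
  · rw [ZZ_im, Complex.mul_im, Complex.conj_re, Complex.conj_im]
    have h4 : (Matrix.of fun k i => (vecs (pt a 0 : EE e) (pt b 0)
        (fun j => pt 0 (Pi.single j 1)) i) k) = Matrix.fromBlocks
        (Matrix.of ![![a.re, b.re], ![a.im, b.im]]) 0 0 1 := by
      ext i j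
      rcases i with i | i
      · rcases j with j | j
        · fin_cases i <;> fin_cases j <;> rfl
        · fin_cases i <;> simp [vecs, pt]
      · rcases j with j | j
        · fin_cases j <;> simp [vecs, pt]
        · simp [vecs, pt, Matrix.one_apply, Pi.single_apply]
    rw [h4, Matrix.det_fromBlocks_zero₁₂, Matrix.det_one, mul_one, Matrix.det_fin_two]
    simp
    ring


/-! ### The whole family -/

/-- Index type: centre, cycle, axis points. -/
abbrev IX (N e : ℕ) : Type := Unit ⊕ ZMod N ⊕ (Fin e × Bool)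

/-- planar part of the starting points -/
noncomputable def zf (N e : ℕ) [NeZero N] : IX N e → ℂ :=
  Sum.elim (fun _ => 0) (Sum.elim (fun k => (ZMod.toCircle k : ℂ)) (fun _ => 0))

/-- remaining coordinates of the points -/
noncomputable def wf (N e : ℕ) (L : ℝ) : IX N e → Fin e → ℝ :=
  Sum.elim (fun _ => 0) (Sum.elim (fun _ => 0)
    (fun jb => Pi.single jb.1 (if jb.2 then L else -L)))

lemma norm_toCircle {N : ℕ} [NeZero N] (k : ZMod N) : ‖(ZMod.toCircle k : ℂ)‖ = 1 :=
  Circle.norm_coe _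

lemma static {e N : ℕ} [NeZero N] (lam L ρ : ℝ) (hL : 0 < L)
    (hρ : ‖(1 : ℂ) - (ZMod.toCircle (1 : ZMod N) : ℂ)‖ ≤ ρ)
    (hcond : ρ ^ 2 / 2 + e / (4 * L ^ 2) < lam ^ 2)
    (y : IX N e → EE e)
    (hup : ∀ i j, ‖y i - y j‖ ^ 2 ≤ ‖zf N e i - zf N e j‖ ^ 2 +
      ∑ l, (wf N e L i l - wf N e L j l) ^ 2)
    (hlo : ∀ i j, lam ^ 2 * ‖zf N e i - zf N e j‖ ^ 2 +
      ∑ l, (wf N e L i l - wf N e L j l) ^ 2 ≤ ‖y i - y j‖ ^ 2) :
    Orthonormal ℝ (fun j : Fin e => (1 / L) • (y (Sum.inr (Sum.inr (j, true))) - y (Sum.inl ()))) ∧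
    ∀ k : ZMod N, 0 < (ZZ (y (Sum.inr (Sum.inl k)) - y (Sum.inl ()))
      (y (Sum.inr (Sum.inl (k + 1))) - y (Sum.inl ()))
      (fun j : Fin e => (1 / L) • (y (Sum.inr (Sum.inr (j, true))) - y (Sum.inl ())))).re := by
  set o := y (Sum.inl ()) with ho
  set A : Fin e → EE e := fun j => y (Sum.inr (Sum.inr (j, true))) - o with hA
  set B : Fin e → EE e := fun j => y (Sum.inr (Sum.inr (j, false))) - o with hB
  set a : ZMod N → EE e := fun k => y (Sum.inr (Sum.inl k)) - o with ha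
  have hsingle : ∀ (j : Fin e) (c : ℝ), ∑ l, (Pi.single j c : Fin e → ℝ) l ^ 2 = c ^ 2 := by
    intro j c
    rw [Finset.sum_eq_single j]
    · simp
    · intro l _ hl
      rw [Pi.single_eq_of_ne hl]; ring
    · intro h; exact absurd (Finset.mem_univ _) h
  have hA2 : ∀ j, ‖A j‖ ^ 2 = L ^ 2 := by
    intro j
    have h1 := hup (Sum.inr (Sum.inr (j, true))) (Sum.inl ())
    have h2 := hlo (Sum.inr (Sum.inr (j, true))) (Sum.inl ())
    simp only [zf, wf, Sum.elim_inl, Sum.elim_inr, sub_self, norm_zero, Pi.zero_apply, sub_zero,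
      if_true, hsingle] at h1 h2
    simp only [hA]
    linarith
  have hB2 : ∀ j, ‖B j‖ ^ 2 = L ^ 2 := by
    intro j
    have h1 := hup (Sum.inr (Sum.inr (j, false))) (Sum.inl ())
    have h2 := hlo (Sum.inr (Sum.inr (j, false))) (Sum.inl ())
    simp only [zf, wf, Sum.elim_inl, Sum.elim_inr, sub_self, norm_zero, Pi.zero_apply, sub_zero,
      Bool.false_eq_true, if_false, hsingle] at h1 h2
    simp only [hB]
    linarith
  have hAB : ∀ j, 4 * L ^ 2 ≤ ‖A j - B j‖ ^ 2 := by
    intro j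
    have h2 := hlo (Sum.inr (Sum.inr (j, true))) (Sum.inr (Sum.inr (j, false)))
    simp only [zf, wf, Sum.elim_inr, sub_self, norm_zero,
      Bool.false_eq_true, if_false, if_true] at h2
    have h3 : ∑ l, ((Pi.single j L : Fin e → ℝ) l - (Pi.single j (-L) : Fin e → ℝ) l) ^ 2 =
        (2 * L) ^ 2 := by
      rw [← hsingle j (2 * L)]
      apply Finset.sum_congr rfl
      intro l _
      by_cases hl : l = j
      · subst hl; simp; ring
      · simp [Pi.single_eq_of_ne hl]
    rw [h3] at h2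
    simp only [hA, hB, sub_sub_sub_cancel_right]
    linarith
  have hBA : ∀ j, B j = -A j := by
    intro j
    have h1 := parallelogram_law_with_norm ℝ (A j) (B j)
    have h2 : ‖A j + B j‖ ^ 2 ≤ 0 := by
      have := hA2 j
      have := hB2 j
      have := hAB j
      nlinarith
    have h3 : ‖A j + B j‖ = 0 := by
      have := sq_nonneg ‖A j + B j‖
      exact pow_eq_zero_iff (two_ne_zero) |>.mp (le_antisymm h2 this)
    rw [norm_eq_zero] at h3
    exact (neg_eq_of_add_eq_zero_right h3).symm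
  have hortho : ∀ j l, j ≠ l → inner ℝ (A j) (A l) = 0 := by
    intro j l hjl
    have h1 := hup (Sum.inr (Sum.inr (j, true))) (Sum.inr (Sum.inr (l, true)))
    have h2 := hlo (Sum.inr (Sum.inr (j, true))) (Sum.inr (Sum.inr (l, true)))
    simp only [zf, wf, Sum.elim_inr, sub_self, norm_zero, if_true] at h1 h2
    have h3 : ∑ r, ((Pi.single j L : Fin e → ℝ) r - (Pi.single l L : Fin e → ℝ) r) ^ 2 =
        2 * L ^ 2 := by
      have h4 : ∑ r, ((Pi.single j L : Fin e → ℝ) r - (Pi.single l L : Fin e → ℝ) r) ^ 2 =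
          ∑ r, ((Pi.single j L : Fin e → ℝ) r ^ 2 + (Pi.single l L : Fin e → ℝ) r ^ 2) := by
        apply Finset.sum_congr rfl
        intro r _
        by_cases hr : r = j
        · subst hr
          simp [Pi.single_eq_of_ne hjl]
        · simp [Pi.single_eq_of_ne hr]
      rw [h4, Finset.sum_add_distrib, hsingle, hsingle]
      ring
    rw [h3] at h1 h2
    have h5 : ‖A j - A l‖ ^ 2 = 2 * L ^ 2 := by
      simp only [hA, sub_sub_sub_cancel_right]
      linarith
    have h6 := norm_sub_sq_real (A j) (A l)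
    rw [h5, hA2, hA2] at h6
    linarith
  have hinner : ∀ k j, |inner ℝ (a k) ((1 / L) • A j)| ≤ 1 / (2 * L) := by
    intro k j
    have hz : ‖(ZMod.toCircle k : ℂ)‖ = 1 := norm_toCircle k
    have hk := hlo (Sum.inr (Sum.inl k)) (Sum.inl ())
    have h1 := hup (Sum.inr (Sum.inl k)) (Sum.inr (Sum.inr (j, true)))
    have h2 := hup (Sum.inr (Sum.inl k)) (Sum.inr (Sum.inr (j, false)))
    simp only [zf, wf, Sum.elim_inl, Sum.elim_inr, sub_zero, Pi.zero_apply, zero_sub, neg_sq,
      Bool.false_eq_true, if_false, if_true, hsingle, hz, sub_self] at hk h1 h2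
    have h3 : ‖a k - A j‖ ^ 2 ≤ 1 + L ^ 2 := by
      simp only [hA, ha, sub_sub_sub_cancel_right]
      linarith
    have h4 : ‖a k - B j‖ ^ 2 ≤ 1 + L ^ 2 := by
      simp only [hB, ha, sub_sub_sub_cancel_right]
      linarith
    have h5 : 0 ≤ ‖a k‖ ^ 2 := sq_nonneg _
    rw [hBA j, sub_neg_eq_add] at h4
    rw [norm_sub_sq_real, hA2] at h3
    rw [norm_add_sq_real, hA2] at h4
    rw [inner_smul_right, abs_mul, abs_of_pos (by positivity : 0 < 1 / L)]
    have h6 : |inner ℝ (a k) (A j)| ≤ 1 / 2 := by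
      rw [abs_le]
      constructor <;> linarith
    calc 1 / L * |inner ℝ (a k) (A j)| ≤ 1 / L * (1 / 2) :=
          mul_le_mul_of_nonneg_left h6 (by positivity)
      _ = 1 / (2 * L) := by ring
  refine ⟨?_, ?_⟩
  · rw [orthonormal_iff_ite]
    intro j l
    by_cases hjl : j = l
    · subst hjl
      rw [if_pos rfl, real_inner_self_eq_norm_sq, norm_smul, mul_pow, hA2, Real.norm_eq_abs,
        sq_abs]
      field_simp
    · rw [if_neg hjl, inner_smul_left, inner_smul_right, hortho j l hjl]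
      simp
  · intro k
    rw [ZZ_re]
    have hz : ∀ k : ZMod N, ‖(ZMod.toCircle k : ℂ)‖ = 1 := norm_toCircle
    have hnorm : ∀ k, lam ^ 2 ≤ ‖a k‖ ^ 2 := by
      intro k
      have hk := hlo (Sum.inr (Sum.inl k)) (Sum.inl ())
      simp only [zf, wf, Sum.elim_inl, Sum.elim_inr, sub_zero, Pi.zero_apply, hz,
        sub_self] at hk
      simp only [ha]
      simp only [ne_eq, OfNat.ofNat_ne_zero, not_false_eq_true, zero_pow, Finset.sum_const_zero,
        add_zero, one_pow, mul_one] at hk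
      exact hk
    have hstep : ‖a k - a (k + 1)‖ ^ 2 ≤ ρ ^ 2 := by
      have h1 := hup (Sum.inr (Sum.inl k)) (Sum.inr (Sum.inl (k + 1)))
      simp only [zf, wf, Sum.elim_inl, Sum.elim_inr, Pi.zero_apply, sub_self] at h1
      simp only [ne_eq, OfNat.ofNat_ne_zero, not_false_eq_true, zero_pow, Finset.sum_const_zero,
        add_zero] at h1
      have h2 : (ZMod.toCircle k : ℂ) - (ZMod.toCircle (k + 1) : ℂ) =
          (ZMod.toCircle k : ℂ) * (1 - (ZMod.toCircle (1 : ZMod N) : ℂ)) := by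
        rw [AddChar.map_add_eq_mul, Circle.coe_mul]
        ring
      rw [h2, norm_mul, hz, one_mul] at h1
      simp only [ha, sub_sub_sub_cancel_right]
      exact h1.trans (pow_le_pow_left₀ (norm_nonneg _) hρ 2)
    have h1 := norm_sub_sq_real (a k) (a (k + 1))
    have h2 : ∑ j, inner ℝ (a k) ((1 / L) • A j) * inner ℝ (a (k + 1)) ((1 / L) • A j) ≤
        e / (4 * L ^ 2) := by
      calc ∑ j, inner ℝ (a k) ((1 / L) • A j) * inner ℝ (a (k + 1)) ((1 / L) • A j)
          ≤ ∑ _j : Fin e, 1 / (4 * L ^ 2) := by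
            apply Finset.sum_le_sum
            intro j _
            calc inner ℝ (a k) ((1 / L) • A j) * inner ℝ (a (k + 1)) ((1 / L) • A j)
                ≤ |inner ℝ (a k) ((1 / L) • A j) * inner ℝ (a (k + 1)) ((1 / L) • A j)| :=
                  le_abs_self _
              _ = |inner ℝ (a k) ((1 / L) • A j)| * |inner ℝ (a (k + 1)) ((1 / L) • A j)| :=
                  abs_mul _ _
              _ ≤ 1 / (2 * L) * (1 / (2 * L)) :=
                  mul_le_mul (hinner k j) (hinner (k + 1) j) (abs_nonneg _) (by positivity)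
              _ = 1 / (4 * L ^ 2) := by field_simp; ring
        _ = e / (4 * L ^ 2) := by
            rw [Finset.sum_const, Finset.card_univ, Fintype.card_fin, nsmul_eq_mul]
            ring
    have h3 := hnorm k
    have h4 := hnorm (k + 1)
    have hgoal : 0 < inner ℝ (a k) (a (k + 1)) -
        ∑ j, inner ℝ (a k) ((1 / L) • A j) * inner ℝ (a (k + 1)) ((1 / L) • A j) := by
      linarith
    exact hgoal

lemma whole {e N : ℕ} [NeZero N] (hN : 3 ≤ N) (lam L ρ : ℝ) (hlam : 0 < lam) (hL : 0 < L)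
    (hρ : ‖(1 : ℂ) - (ZMod.toCircle (1 : ZMod N) : ℂ)‖ ≤ ρ)
    (hcond : ρ ^ 2 / 2 + e / (4 * L ^ 2) < lam ^ 2) :
    ¬ Adm (fun i : IX N e => (pt (zf N e i) (wf N e L i) : EE e))
      (fun i => pt ((lam : ℂ) * (starRingEnd ℂ) (zf N e i)) (wf N e L i)) Set.univ := by
  rintro ⟨x, hx, hanti⟩
  have h01 : (0 : ℝ) ∈ Set.Icc (0 : ℝ) 1 := by simp
  have h11 : (1 : ℝ) ∈ Set.Icc (0 : ℝ) 1 := by simp
  have hup : ∀ t ∈ Set.Icc (0 : ℝ) 1, ∀ i j, ‖x i t - x j t‖ ^ 2 ≤
      ‖zf N e i - zf N e j‖ ^ 2 + ∑ l, (wf N e L i l - wf N e L j l) ^ 2 := by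
    intro t ht i j
    have h1 := hanti i (Set.mem_univ _) j (Set.mem_univ _) h01 ht ht.1
    simp only at h1
    rw [(hx i (Set.mem_univ _)).2.1, (hx j (Set.mem_univ _)).2.1, pt_sub] at h1
    have h2 := pow_le_pow_left₀ (norm_nonneg _) h1 2
    rw [norm_pt_sq] at h2
    exact h2
  have hlo : ∀ t ∈ Set.Icc (0 : ℝ) 1, ∀ i j, lam ^ 2 * ‖zf N e i - zf N e j‖ ^ 2 +
      ∑ l, (wf N e L i l - wf N e L j l) ^ 2 ≤ ‖x i t - x j t‖ ^ 2 := by
    intro t ht i j
    have h1 := hanti i (Set.mem_univ _) j (Set.mem_univ _) ht h11 ht.2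
    simp only at h1
    rw [(hx i (Set.mem_univ _)).2.2, (hx j (Set.mem_univ _)).2.2, pt_sub, ← mul_sub,
      ← map_sub] at h1
    have h2 := pow_le_pow_left₀ (norm_nonneg _) h1 2
    rw [norm_pt_sq, norm_mul, RCLike.norm_conj, Complex.norm_real, Real.norm_eq_abs, mul_pow,
      sq_abs] at h2
    exact h2
  have hst := fun t ht => static lam L ρ hL hρ hcond (fun i => x i t) (hup t ht) (hlo t ht)
  set a : ZMod N → ℝ → EE e := fun k t => x (Sum.inr (Sum.inl k)) t - x (Sum.inl ()) t with ha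
  set f : ℝ → Fin e → EE e := fun t j =>
    (1 / L) • (x (Sum.inr (Sum.inr (j, true))) t - x (Sum.inl ()) t) with hf
  set W : ℝ → ℝ := fun t => ∑ k, Complex.arg (ZZ (a k t) (a (k + 1) t) (f t)) with hW
  have hcx : ∀ i, ContinuousOn (x i) (Set.Icc 0 1) := fun i => (hx i (Set.mem_univ _)).1
  have hca : ∀ k, ContinuousOn (a k) (Set.Icc 0 1) := fun k => (hcx _).sub (hcx _)
  have hcf : ContinuousOn f (Set.Icc 0 1) := by
    apply continuousOn_pi.mpr
    intro j
    exact ((hcx _).sub (hcx _)).const_smul (1 / L)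
  have hcW : ContinuousOn W (Set.Icc 0 1) := by
    apply continuousOn_finsetSum
    intro k _
    exact continuousOn_arg_ZZ (hca k) (hca (k + 1)) hcf (fun t ht => (hst t ht).2 k)
  have hpiN : 0 < Real.pi := Real.pi_pos
  have hN0 : (0 : ℝ) < N := by
    have : (3 : ℝ) ≤ N := by exact_mod_cast hN
    linarith
  have hθ : 2 * Real.pi / N < Real.pi := by
    rw [div_lt_iff₀ hN0]
    have : (3 : ℝ) ≤ N := by exact_mod_cast hN
    nlinarith
  have hθ0 : 0 < 2 * Real.pi / N := by positivity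
  have hω : (ZMod.toCircle (1 : ZMod N) : ℂ) =
      Complex.exp (((2 * Real.pi / N : ℝ) : ℂ) * Complex.I) := by
    have := ZMod.toCircle_natCast (N := N) 1
    rw [Nat.cast_one] at this
    rw [this]
    congr 1
    push_cast
    ring
  have hscale : (fun j : Fin e => (1 / L) •
      ((pt 0 (Pi.single j L) : EE e) - pt 0 0)) = fun j => pt 0 (Pi.single j 1) := by
    funext j
    ext i
    rcases i with i | i
    · fin_cases i <;> simp [pt]
    · simp only [pt, one_div, PiLp.smul_apply, PiLp.sub_apply, Sum.elim_inr, smul_eq_mul,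
        Pi.zero_apply, sub_zero, Pi.single_apply]
      split_ifs
      · field_simp
      · simp
  have hW0 : W 0 = 2 * Real.pi := by
    have h1 : ∀ k, ZZ (a k 0) (a (k + 1) 0) (f 0) = (ZMod.toCircle (1 : ZMod N) : ℂ) := by
      intro k
      have e1 : ∀ k, a k 0 = pt (ZMod.toCircle k : ℂ) 0 := by
        intro k
        simp only [ha]
        rw [(hx _ (Set.mem_univ _)).2.1, (hx _ (Set.mem_univ _)).2.1, pt_sub]
        simp [zf, wf]
      have e2 : f 0 = fun j => pt 0 (Pi.single j 1) := by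
        rw [← hscale]
        funext j
        simp only [hf]
        rw [(hx _ (Set.mem_univ _)).2.1, (hx _ (Set.mem_univ _)).2.1]
        simp [zf, wf]
      rw [e1, e1, e2, ZZ_pt, AddChar.map_add_eq_mul, Circle.coe_mul, ← mul_assoc,
        mul_comm ((starRingEnd ℂ) _), Complex.mul_conj, Complex.normSq_eq_norm_sq, norm_toCircle]
      simp
    simp only [hW, h1]
    rw [Finset.sum_const, Finset.card_univ, ZMod.card, nsmul_eq_mul, hω, Complex.exp_mul_I,
      Complex.arg_cos_add_sin_mul_I ⟨by linarith, by linarith⟩]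
    field_simp
  have hW1 : W 1 ≤ Real.pi := by
    have h1 : ∀ k, ZZ (a k 1) (a (k + 1) 1) (f 1) =
        ((lam ^ 2 : ℝ) : ℂ) * (starRingEnd ℂ) (ZMod.toCircle (1 : ZMod N) : ℂ) := by
      intro k
      have e1 : ∀ k, a k 1 = pt ((lam : ℂ) * (starRingEnd ℂ) (ZMod.toCircle k : ℂ)) 0 := by
        intro k
        simp only [ha]
        rw [(hx _ (Set.mem_univ _)).2.2, (hx _ (Set.mem_univ _)).2.2, pt_sub]
        simp [zf, wf]
      have e2 : f 1 = fun j => pt 0 (Pi.single j 1) := by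
        rw [← hscale]
        funext j
        simp only [hf]
        rw [(hx _ (Set.mem_univ _)).2.2, (hx _ (Set.mem_univ _)).2.2]
        simp [zf, wf]
      rw [e1, e1, e2, ZZ_pt, AddChar.map_add_eq_mul, Circle.coe_mul]
      simp only [map_mul, Complex.conj_conj, Complex.conj_ofReal]
      have h3 : (ZMod.toCircle k : ℂ) * (starRingEnd ℂ) (ZMod.toCircle k : ℂ) = 1 := by
        rw [Complex.mul_conj, Complex.normSq_eq_norm_sq, norm_toCircle]
        simp
      calc (lam : ℂ) * (ZMod.toCircle k : ℂ) * ((lam : ℂ) * ((starRingEnd ℂ) (ZMod.toCircle k : ℂ) *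
            (starRingEnd ℂ) (ZMod.toCircle (1 : ZMod N) : ℂ)))
          = (lam : ℂ) ^ 2 * ((ZMod.toCircle k : ℂ) * (starRingEnd ℂ) (ZMod.toCircle k : ℂ)) *
            (starRingEnd ℂ) (ZMod.toCircle (1 : ZMod N) : ℂ) := by ring
        _ = _ := by rw [h3]; push_cast; ring
    simp only [hW, h1]
    rw [Finset.sum_const, Finset.card_univ, ZMod.card, nsmul_eq_mul,
      Complex.arg_real_mul _ (by positivity : 0 < lam ^ 2), Complex.arg_conj, hω,
      Complex.exp_mul_I, Complex.arg_cos_add_sin_mul_I ⟨by linarith, by linarith⟩]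
    rw [if_neg (by linarith)]
    have : (N : ℝ) * -(2 * Real.pi / N) = -(2 * Real.pi) := by field_simp
    rw [this]
    linarith
  obtain ⟨t, ht, htπ⟩ := intermediate_value_Icc' (zero_le_one' ℝ) hcW
    (⟨hW1, by rw [hW0]; linarith⟩ : Real.pi ∈ Set.Icc (W 1) (W 0))
  exact sum_arg_ne_pi (fun k => a k t) (f t) (hst t ht).1 (hst t ht).2 htπ


/-! ### Transfer to `Fin n` and the conclusion -/

lemma adm_to {ι E : Type} [NormedAddCommGroup E] [InnerProductSpace ℝ E] {d n : ℕ}
    (φ : E ≃ₗᵢ[ℝ] EuclideanSpace ℝ (Fin d)) (σ : ι ≃ Fin n) (p q : ι → E) (J : Finset (Fin n))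
    (I : Set ι) (hJ : ∀ i ∈ J, σ.symm i ∈ I) (h : Adm p q I) :
    AdmitsShrinking d n (fun i => φ (p (σ.symm i))) (fun i => φ (q (σ.symm i))) J := by
  obtain ⟨x, hx, hanti⟩ := h
  refine ⟨fun i t => φ (x (σ.symm i) t), ?_, ?_⟩
  · intro i hi
    obtain ⟨h1, h2, h3⟩ := hx (σ.symm i) (hJ i hi)
    refine ⟨φ.continuous.comp_continuousOn h1, ?_, ?_⟩
    · simp only [h2]
    · simp only [h3]
  · intro i hi j hj t ht t' ht' htt
    have := hanti (σ.symm i) (hJ i hi) (σ.symm j) (hJ j hj) ht ht' htt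
    simp only at this ⊢
    rw [← map_sub, ← map_sub, LinearIsometryEquiv.norm_map, LinearIsometryEquiv.norm_map]
    exact this

lemma adm_of {ι E : Type} [NormedAddCommGroup E] [InnerProductSpace ℝ E] {d n : ℕ}
    (φ : E ≃ₗᵢ[ℝ] EuclideanSpace ℝ (Fin d)) (σ : ι ≃ Fin n) (p q : ι → E)
    (h : AdmitsShrinking d n (fun i => φ (p (σ.symm i))) (fun i => φ (q (σ.symm i)))
      Finset.univ) :
    Adm p q Set.univ := by
  obtain ⟨x, hx, hanti⟩ := h
  refine ⟨fun i t => φ.symm (x (σ i) t), ?_, ?_⟩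
  · intro i _
    obtain ⟨h1, h2, h3⟩ := hx (σ i) (Finset.mem_univ _)
    refine ⟨φ.symm.continuous.comp_continuousOn h1, ?_, ?_⟩
    · simp only [h2, Equiv.symm_apply_apply, LinearIsometryEquiv.symm_apply_apply]
    · simp only [h3, Equiv.symm_apply_apply, LinearIsometryEquiv.symm_apply_apply]
  · intro i _ j _ t ht t' ht' htt
    have := hanti (σ i) (Finset.mem_univ _) (σ j) (Finset.mem_univ _) ht ht' htt
    simp only at this ⊢
    rw [← map_sub, ← map_sub, LinearIsometryEquiv.norm_map, LinearIsometryEquiv.norm_map]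
    exact this

lemma not_helly (e m : ℕ) : ¬ IsHellyNumber (2 + e) m := by
  intro hH
  set lam := lamOf (m * m) with hlamdef
  have hlam : 0 < lam := lamOf_pos _
  have hlam1 : lam ≤ 1 := lamOf_le_one _
  obtain ⟨N, hN⟩ := exists_nat_gt (7 / lam)
  have hN7 : (7 : ℝ) < N := by
    have : 7 ≤ 7 / lam := by
      rw [le_div_iff₀ hlam]
      linarith
    linarith
  have hN3 : 3 ≤ N := by
    have : (3 : ℝ) ≤ N := by linarith
    exact_mod_cast this
  have : NeZero N := ⟨by omega⟩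
  have hN0 : (0 : ℝ) < N := by linarith
  set ρ : ℝ := 2 * Real.pi / N with hρdef
  have hρ0 : 0 < ρ := by positivity
  have hρlam : ρ < lam := by
    rw [hρdef, div_lt_iff₀ hN0]
    have h1 : 7 < lam * N := by
      rw [div_lt_iff₀ hlam] at hN
      linarith
    have h2 := Real.pi_lt_d2
    linarith
  set L : ℝ := (e + 1) / lam with hLdef
  have he : (0 : ℝ) ≤ e := Nat.cast_nonneg e
  have hL : 0 < L := by positivity
  have hω : (ZMod.toCircle (1 : ZMod N) : ℂ) = Complex.exp (Complex.I * (ρ : ℂ)) := by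
    have := ZMod.toCircle_natCast (N := N) 1
    rw [Nat.cast_one] at this
    rw [this, hρdef]
    congr 1
    push_cast
    ring
  have hρ : ‖(1 : ℂ) - (ZMod.toCircle (1 : ZMod N) : ℂ)‖ ≤ ρ := by
    rw [norm_sub_rev, hω]
    refine Real.norm_exp_I_mul_ofReal_sub_one_le.trans ?_
    rw [Real.norm_eq_abs, abs_of_pos hρ0]
  have hcond : ρ ^ 2 / 2 + e / (4 * L ^ 2) < lam ^ 2 := by
    have h1 : ρ ^ 2 < lam ^ 2 := by nlinarith
    have h2 : e / (4 * L ^ 2) ≤ lam ^ 2 / 4 := by
      rw [hLdef, div_pow]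
      have : (e : ℝ) / (4 * ((e + 1) ^ 2 / lam ^ 2)) = (e / (e + 1) ^ 2) * (lam ^ 2 / 4) := by
        field_simp
      rw [this]
      have h3 : (e : ℝ) / (e + 1) ^ 2 ≤ 1 := by
        rw [div_le_one (by positivity)]
        nlinarith
      have h4 : 0 ≤ lam ^ 2 / 4 := by positivity
      nlinarith
    nlinarith
  have hwhole := whole (e := e) hN3 lam L ρ hlam hL hρ hcond
  let σ : IX N e ≃ Fin (Fintype.card (IX N e)) := Fintype.equivFin (IX N e)
  let φ : EE e ≃ₗᵢ[ℝ] EuclideanSpace ℝ (Fin (2 + e)) :=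
    LinearIsometryEquiv.piLpCongrLeft 2 ℝ ℝ finSumFinEquiv
  apply hwhole
  apply adm_of φ σ
  apply hH
  intro J hJ
  apply adm_to φ σ (fun i : IX N e => (pt (zf N e i) (wf N e L i) : EE e))
    (fun i => pt ((lam : ℂ) * (starRingEnd ℂ) (zf N e i)) (wf N e L i)) J
    ((J.map σ.symm.toEmbedding : Finset (IX N e)) : Set (IX N e))
  · intro i hi
    rw [Finset.mem_coe, Finset.mem_map]
    exact ⟨i, hi, rfl⟩
  · apply subfamily (zf N e) (wf N e L) m
    rw [Finset.card_map]
    exact hJ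

/-- No Helly number for continuous shrinkings exists in any dimension `d ≥ 2`. -/
theorem result : ∀ d : ℕ, 2 ≤ d → ∀ m : ℕ, ¬ IsHellyNumber d m := by
  intro d hd m
  obtain ⟨e, rfl⟩ := Nat.exists_eq_add_of_le hd
  exact not_helly e m

end Pool.Agent.Results.MP_9d6213_co.NoHellyNumber
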